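import Mathlib
import Pool.Agent.NH19.UxC

set_option autoImplicit false

/-!
# The least prime factor of an odd perfect number and the prime factors of its exponents plus one

Let `P` be the least prime factor of the odd perfect number `N` and `Λ` a finite set of primes
`l ≤ L`.  If `log P ≥ C (|Λ| + 1) L ^ ε`, then many prime factors `p` of `N` are such that no `l ∈ Λ`
divides `v_p(N) + 1`: the sum of `1 / p` over these `p` in the class `1` modulo `m` exceeds
`1 / (8 m)`, for `m = 1` or for some `m ∈ Λ`.  In particular `log P ≤ C E ^ (1 + ε)` if all the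
exponents of `N` but one are at most `E`.

* `Ux.count_Vm`: an upper bound sieve for the primes `p ≡ 1 (mod m)`, `p ∣ N`, `l ∣ v_p + 1`, uniform
  in `l` and `m` (Siegel–Walfisz): the excluded classes belong to the primes `r ∤ N`; it needs that
  the sum of `(l - 1) / r` over the prime factors `r ≡ 1 (mod l)` of `N` below the sieving level is
  bounded.
* `Ux.main`: induction on the level, in which the counts for all `l ∈ Λ` give the bound needed for
  the sum over the prime factors `r ≡ 1 (mod l)` at the next level.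
-/

namespace Pool.Agent.Results.MP_f02ea4_nt.ExponentsWithoutSmallPrimes
open Finset

/-- **Main theorem.** Let `0 < ε ≤ 1`.  There is `C` such that for every odd perfect number `N` with
least prime factor `P`:
* for `L ≥ 1` and every finite set `Λ` of primes `l ≤ L` with `C (|Λ| + 1) L ^ ε ≤ log P` there is
  `m`, equal to `1` or in `Λ`, such that the sum of `1 / p` over the prime factors `p ≡ 1 (mod m)` of
  `N` for which no `l ∈ Λ` divides `v_p(N) + 1` is greater than `1 / (8 m)`;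
* if all prime factors `p ≠ P₀` of `N` have `v_p(N) ≤ E`, where `E ≥ 1`, then
  `log P ≤ C E ^ (1 + ε)`. -/
theorem result (ε : ℝ) (hε : 0 < ε) (hε1 : ε ≤ 1) : ∃ C : ℝ, 0 < C ∧
    ∀ N : ℕ, Odd N → N.Perfect →
    (∀ L : ℝ, 1 ≤ L → ∀ Λ : Finset ℕ, (∀ l ∈ Λ, l.Prime ∧ (l : ℝ) ≤ L) →
      C * ((Λ.card : ℝ) + 1) * L ^ ε ≤ Real.log N.minFac →
      ∃ m : ℕ, (m = 1 ∨ m ∈ Λ) ∧ 1 / (8 * (m : ℝ)) <
        ∑ p ∈ N.primeFactors.filter (fun p => p ≡ 1 [MOD m] ∧
          ∀ l ∈ Λ, ¬ l ∣ N.factorization p + 1), 1 / (p : ℝ)) ∧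
    (∀ P₀ E : ℕ, 1 ≤ E → (∀ p ∈ N.primeFactors, p ≠ P₀ → N.factorization p ≤ E) →
      Real.log N.minFac ≤ C * (E : ℝ) ^ (1 + ε)) := by
  classical
  obtain ⟨C₁, hC₁, h1⟩ := Pool.Agent.NH19.Ux.main ε hε hε1
  obtain ⟨C₂, hC₂, h2⟩ := Pool.Agent.NH19.Ux.cor ε hε hε1
  refine ⟨C₁ + 4 * C₂, by linarith, fun N hodd hperf => ⟨fun L hL Λ hΛ hP => ?_,
    fun P₀ E hE hexp => ?_⟩⟩
  · refine h1 N hodd hperf L hL Λ hΛ (le_trans ?_ hP)
    gcongr
    linarith
  · set Λ : Finset ℕ := (Icc 2 (E + 1)).filter Nat.Prime with hΛ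
    have hEr : (1 : ℝ) ≤ E := by exact_mod_cast hE
    have hcard : Λ.card ≤ E := by
      calc Λ.card ≤ (Icc 2 (E + 1)).card := card_filter_le _ _
        _ = E := by simp
    have hcardr : (Λ.card : ℝ) ≤ E := by exact_mod_cast hcard
    have hN0 := hperf.2.ne'
    have h3 := h2 N hodd hperf ((E : ℝ) + 1) (by linarith) Λ (fun l hl => by
      obtain ⟨h4, h5⟩ := mem_filter.1 hl
      refine ⟨h5, ?_⟩
      exact_mod_cast (mem_Icc.1 h4).2) P₀ (fun p hp hne => by
      have hv : 0 < N.factorization p :=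
        (Nat.prime_of_mem_primeFactors hp).factorization_pos_of_dvd hN0
          (Nat.dvd_of_mem_primeFactors hp)
      have h4 : (N.factorization p + 1).minFac.Prime := Nat.minFac_prime (by omega)
      have h5 : (N.factorization p + 1).minFac ≤ N.factorization p + 1 :=
        Nat.minFac_le (by omega)
      have h6 := hexp p hp hne
      exact ⟨_, mem_filter.2 ⟨mem_Icc.2 ⟨h4.two_le, by omega⟩, h4⟩, Nat.minFac_dvd _⟩)
    refine h3.le.trans ?_
    have h4 : ((E : ℝ) + 1) ^ ε ≤ 2 * (E : ℝ) ^ ε := by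
      calc ((E : ℝ) + 1) ^ ε ≤ (2 * (E : ℝ)) ^ ε :=
            Real.rpow_le_rpow (by linarith) (by linarith) hε.le
        _ = 2 ^ ε * (E : ℝ) ^ ε := Real.mul_rpow (by norm_num) (by linarith)
        _ ≤ 2 * (E : ℝ) ^ ε := by
            have : (2 : ℝ) ^ ε ≤ 2 ^ (1 : ℝ) :=
              Real.rpow_le_rpow_of_exponent_le (by norm_num) hε1
            rw [Real.rpow_one] at this
            gcongr
    calc C₂ * ((Λ.card : ℝ) + 1) * ((E : ℝ) + 1) ^ ε
        ≤ C₂ * (2 * (E : ℝ)) * (2 * (E : ℝ) ^ ε) := by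
          gcongr
          linarith
      _ = 4 * C₂ * ((E : ℝ) * (E : ℝ) ^ ε) := by ring
      _ = 4 * C₂ * (E : ℝ) ^ (1 + ε) := by
          rw [Real.rpow_add (by linarith), Real.rpow_one]
      _ ≤ (C₁ + 4 * C₂) * (E : ℝ) ^ (1 + ε) := by
          gcongr
          linarith

end Pool.Agent.Results.MP_f02ea4_nt.ExponentsWithoutSmallPrimes
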