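import Mathlib
import Pool.Agent.NH19.SpE

set_option autoImplicit false

/-!
# The part of an odd perfect number composed of fixed primes

Let `T` be a finite set of primes and, for an odd perfect number `N`, let
`D = ∏ p ∈ T, p ^ v_p(N)`.  The trivial bound (each component `p ^ a` of `N` divides `σ` of the
cofactor) gives at best `D ≤ N ^ (1/2 + o(1))`.  We show `D ≤ C N ^ (2/5 + ε)`, and
`D ≤ C N ^ (1/3 + ε)` when no prime outside `T` divides `N` exactly once, with `C` depending on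
`T` and `ε` only (ineffective).

* `Sp.rid_pair`, `Sp.rid_pairs`: consequences of Ridout's theorem for the `T`-part of `A r ^ m - B`
  (with the coefficients `A`, `B` composed of a `T`-part and a factor entering the bound).
* `Sp.prod_bound`, `Sp.bound_A`: the `T`-part of `∏ σ(r ^ v_r)` over any set `A` of prime factors
  of `N` is at most `C N ^ ε ∏ r`, over the `r ∈ A` outside `T`.
* `Sp.part_succ`, `Sp.bound_M`: if `P` divides `N` exactly once and `P ∣ σ(q ^ v_q)` with `q ∈ T`,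
  then the square of the `T`-part of `P + 1` is at most `C (q ^ v_q) ^ (1 + ε)`.
-/

namespace Pool.Agent.Results.MP_f02ea4_nt.FixedPrimesPart
open Finset
open Pool.Agent.NH19.Sp

lemma two_dvd_S {r : ℕ} (hr : Odd r) {e : ℕ} (he : Odd e) : 2 ∣ S r e := by
  have h1 : Even (S r e) := by
    unfold S
    rw [Nat.even_iff]
    have h2 : (∑ i ∈ range (e + 1), r ^ i) % 2 = (∑ i ∈ range (e + 1), 1) % 2 := by
      rw [Finset.sum_nat_mod, Finset.sum_nat_mod (range (e + 1)) 2 (fun _ => 1)]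
      congr 1
      refine Finset.sum_congr rfl fun i _ => ?_
      exact Nat.odd_iff.1 (hr.pow)
    rw [h2, Finset.sum_const, Finset.card_range, smul_eq_mul, mul_one]
    exact Nat.even_iff.1 he.add_one
  exact h1.two_dvd

lemma sigma_eq {N : ℕ} (hperf : N.Perfect) :
    ∏ r ∈ N.primeFactors, S r (N.factorization r) = 2 * N := by
  have hN0 := hperf.2.ne'
  rw [← (Nat.perfect_iff_sum_divisors_eq_two_mul hperf.2).1 hperf, Nat.sum_divisors hN0]
  rfl

lemma one_odd {N : ℕ} (hodd : Odd N) (hperf : N.Perfect) {P Q : ℕ} (hP : P ∈ N.primeFactors)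
    (hQ : Q ∈ N.primeFactors) (h1 : Odd (N.factorization P)) (h2 : Odd (N.factorization Q)) :
    P = Q := by
  by_contra hne
  have hσ := sigma_eq hperf
  have hP' : Odd P := hodd.of_dvd_nat (Nat.dvd_of_mem_primeFactors hP)
  have hQ' : Odd Q := hodd.of_dvd_nat (Nat.dvd_of_mem_primeFactors hQ)
  have h3 : 2 * 2 ∣ 2 * N := by
    rw [← hσ, ← Finset.mul_prod_erase _ _ hP,
      ← Finset.mul_prod_erase (N.primeFactors.erase P) _ (Finset.mem_erase.2 ⟨Ne.symm hne, hQ⟩),
      ← mul_assoc]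
    exact (mul_dvd_mul (two_dvd_S hP' h1) (two_dvd_S hQ' h2)).mul_right _
  have h4 : 2 ∣ N := Nat.dvd_of_mul_dvd_mul_left (by norm_num) h3
  exact (Nat.not_even_iff_odd.2 hodd) (even_iff_two_dvd.2 h4)

/-- taking a root -/
lemma root_bound {D N K a b e : ℝ} {k : ℕ} (hk : 0 < k) (hN : 1 ≤ N) (hK : 1 ≤ K)
    (h : D ^ k ≤ K * N ^ a) (hab : a / k + e ≤ b) (he : 0 ≤ e) : D ≤ K * N ^ b := by
  have hN0 : 0 < N := by linarith
  have hk0 : (k : ℝ) ≠ 0 := by exact_mod_cast hk.ne'
  have hk1 : (1 : ℝ) ≤ k := by exact_mod_cast hk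
  refine le_of_pow_le_pow_left₀ hk.ne' (by positivity) (h.trans ?_)
  rw [mul_pow]
  have h1 : K ≤ K ^ k := le_self_pow₀ hK hk.ne'
  have h2 : N ^ a ≤ (N ^ b) ^ k := by
    rw [← Real.rpow_natCast (N ^ b) k, ← Real.rpow_mul hN0.le]
    refine Real.rpow_le_rpow_of_exponent_le hN ?_
    have h3 : a / k ≤ b := by linarith
    rwa [div_le_iff₀ (by linarith)] at h3
  gcongr

/-- **Main theorem.** Let `T` be a finite set of primes and `ε > 0`.  There is `C` such that for
every odd perfect number `N`, with `D = ∏ p ∈ T, p ^ v_p(N)`: `D ≤ C N ^ ε ∏ p`, over the prime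
factors `p` of `N` outside `T`; `D ≤ C N ^ (2/5 + ε)`; and `D ≤ C N ^ (1/3 + ε)` if no prime
outside `T` divides `N` exactly once. -/
theorem result (T : Finset ℕ) (hT : ∀ p ∈ T, p.Prime) (ε : ℝ) (hε : 0 < ε) :
    ∃ C : ℝ, 0 < C ∧ ∀ N : ℕ, Odd N → N.Perfect →
      ((∏ p ∈ T, p ^ N.factorization p : ℕ) : ℝ) ≤
        C * (N : ℝ) ^ ε * ((∏ p ∈ N.primeFactors \ T, p : ℕ) : ℝ) ∧
      ((∏ p ∈ T, p ^ N.factorization p : ℕ) : ℝ) ≤ C * (N : ℝ) ^ (2 / 5 + ε) ∧
      ((∀ q ∈ N.primeFactors \ T, N.factorization q ≠ 1) →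
        ((∏ p ∈ T, p ^ N.factorization p : ℕ) : ℝ) ≤ C * (N : ℝ) ^ (1 / 3 + ε)) := by
  classical
  set δ : ℝ := min 1 ε / 4 with hδ
  have hm : 0 < min 1 ε := lt_min one_pos hε
  have hδ0 : 0 < δ := by positivity
  have hδ1 : δ ≤ 1 := by
    have := min_le_left (1 : ℝ) ε
    linarith
  have hδε : 4 * δ ≤ ε := by
    have := min_le_right (1 : ℝ) ε
    linarith
  set T' : Finset ℕ := T.erase 2 with hT'
  have hTp : ∀ p ∈ T', p.Prime := fun p hp => hT p (Finset.mem_of_mem_erase hp)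
  have hT2 : 2 ∉ T' := by simp [hT']
  obtain ⟨K1, hK1, h1⟩ := main1 T' hTp hT2 δ hδ0 hδ1
  obtain ⟨K3, hK3, h3⟩ := main3 T' hTp hT2 δ hδ0 hδ1
  obtain ⟨K5, hK5, h5⟩ := main5 T' hTp hT2 δ hδ0 hδ1
  refine ⟨K1 * K3 * K5, by positivity, fun N hodd hperf => ?_⟩
  have hN0 : N ≠ 0 := hperf.2.ne'
  have hσ := sigma_eq hperf
  have hN1 : (1 : ℝ) ≤ N := by exact_mod_cast Nat.pos_of_ne_zero hN0
  have h2N : ¬ 2 ∣ N := fun h => (Nat.not_even_iff_odd.2 hodd) (even_iff_two_dvd.2 h)
  have hv2 : N.factorization 2 = 0 := Nat.factorization_eq_zero_of_not_dvd h2N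
  have hDe : ∏ p ∈ T, p ^ N.factorization p = tpart T' N := by
    unfold tpart
    rw [hT']
    by_cases h2T : 2 ∈ T
    · rw [← Finset.mul_prod_erase T _ h2T, hv2, pow_zero, one_mul]
    · rw [Finset.erase_eq_of_notMem h2T]
  have hset : N.primeFactors \ T' = N.primeFactors \ T := by
    ext r
    simp only [hT', Finset.mem_sdiff, Finset.mem_erase, not_and, Nat.mem_primeFactors]
    constructor
    · rintro ⟨hr, hr'⟩
      refine ⟨hr, hr' ?_⟩
      rintro rfl
      exact h2N hr.2.1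
    · rintro ⟨hr, hr'⟩
      exact ⟨hr, fun _ => hr'⟩
  have hKK1 : K1 ≤ K1 * K3 * K5 := by
    have : 1 ≤ K3 * K5 := one_le_mul_of_one_le_of_one_le hK3 hK5
    nlinarith
  have hKK3 : K3 ≤ K1 * K3 * K5 := by
    have : 1 ≤ K1 * K5 := one_le_mul_of_one_le_of_one_le hK1 hK5
    nlinarith
  have hKK5 : K5 ≤ K1 * K3 * K5 := by
    have : 1 ≤ K1 * K3 := one_le_mul_of_one_le_of_one_le hK1 hK3
    nlinarith
  have hvpos : ∀ r ∈ N.primeFactors, 1 ≤ N.factorization r := fun r hr =>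
    (Nat.prime_of_mem_primeFactors hr).factorization_pos_of_dvd hN0 (Nat.dvd_of_mem_primeFactors hr)
  rw [hDe]
  -- the case of no exponent one
  have hthird : (∀ q ∈ N.primeFactors \ T, N.factorization q ≠ 1) →
      (tpart T' N : ℝ) ≤ K1 * K3 * K5 * (N : ℝ) ^ (1 / 3 + ε) := by
    intro hq
    have a1 := h3 N hN0 hσ (fun r hr => by
      rw [hset] at hr
      have := hvpos r (Finset.mem_sdiff.1 hr).1
      have := hq r hr
      omega)
    have a2 := root_bound (k := 3) (e := 0) (b := 1 / 3 + ε) (by norm_num) hN1 hK3 a1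
      (by push_cast; linarith) le_rfl
    refine a2.trans ?_
    gcongr
  refine ⟨?_, ?_, hthird⟩
  · refine (h1 N hN0 hσ).trans ?_
    rw [hset]
    push_cast
    have : (N : ℝ) ^ (2 * δ) ≤ (N : ℝ) ^ ε :=
      Real.rpow_le_rpow_of_exponent_le hN1 (by linarith)
    gcongr
  · by_cases hq : ∀ q ∈ N.primeFactors \ T, N.factorization q ≠ 1
    · refine (hthird hq).trans ?_
      have : (N : ℝ) ^ (1 / 3 + ε) ≤ (N : ℝ) ^ (2 / 5 + ε) :=
        Real.rpow_le_rpow_of_exponent_le hN1 (by linarith)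
      gcongr
    · push Not at hq
      obtain ⟨P, hP, hvP⟩ := hq
      rw [← hset] at hP
      have hPpf := (Finset.mem_sdiff.1 hP).1
      have a1 := h5 N hN0 hσ P hP hvP (fun r hr => by
        obtain ⟨hrP, hr⟩ := Finset.mem_erase.1 hr
        have hrpf := (Finset.mem_sdiff.1 hr).1
        have h6 := hvpos r hrpf
        by_contra h7
        have h8 : N.factorization r = 1 := by omega
        exact hrP (one_odd hodd hperf hrpf hPpf (by rw [h8]; exact odd_one)
          (by rw [hvP]; exact odd_one)))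
      have a2 := root_bound (k := 5) (e := 0) (b := 2 / 5 + ε) (by norm_num) hN1 hK5 a1
        (by push_cast; linarith) le_rfl
      refine a2.trans ?_
      gcongr

end Pool.Agent.Results.MP_f02ea4_nt.FixedPrimesPart
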