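import Mathlib
import Pool.Agent.NH19.IxC

set_option autoImplicit false

/-!
# The index of an odd perfect number is at least a power of the number

Let `N` be an odd perfect number, `p ^ a` a prime power exactly dividing `N`, `m = N / p ^ a` and
`s = σ(m) / p ^ a` (the index), so that `s σ(p ^ a) = 2 m`.  We show
`log N ≤ 6000 * min (ω(N), a, log s) * log s`.

For a prime power `q ^ e` exactly dividing `m` write `σ(q ^ e) = p ^ c u` with `p ∤ u`; the product
of the `u` is `s` and the sum of the `c` is `a`.  Let `J` be the integer part of `(a + 1) / c`.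

* `Ix.comp_B`: if `q ∤ s` and `u ≥ 2`, then `log (q ^ e) ≤ 30 J log u`.  Indeed
  `p ^ (a + 1) = 1` and `p ^ c u (1 - q) = 1` modulo `q ^ e`, hence, with `w = a + 1 - c J` and
  `v = c - w`, `p ^ w = u ^ J (1 - q) ^ J` and `p ^ v u ^ (J + 1) (1 - q) ^ (J + 1) = 1` modulo
  `q ^ e`; one of `p ^ w`, `p ^ v` is at most `q ^ (e / 2)`.  The Padé approximants of
  `(1 - X) ^ J` (`Pade.pade_bound`) bound the exponent `e` of such a congruence.
* `Ix.bound_one`: if `q ∤ s` and `u = 1`, then `e ≥ 2` and `q ^ (e - 1) ∣ a + 1`.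
* The components with `q ∣ s` are treated in the same way (`Ix.comp_A`).
* `Dt.log_N_le`, `Dt.log_N_le'`: the summation over the components.
-/

namespace Pool.Agent.Results.MP_f02ea4_nt.IndexFractionalPower
open Finset
open Pool.Agent.W137.Count Pool.Agent.W137.Index
open Pool.Agent.NH19.Ix

/-- **Main theorem.** Let `N` be an odd perfect number, `p` a prime factor of `N`, `a` its exponent.
Then `σ(N / p ^ a) = s * p ^ a` for an integer `s` (the index) which satisfies
`log N ≤ 6000 * min (ω(N), a, log s) * log s`.  Hence `s ≥ exp (√(log N / 6000))` and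
`s ≥ N ^ (1 / (6000 * min (ω(N), a)))`; moreover `(p ^ a) ^ 2 * s ≤ 2 * N`. -/
theorem result (N : ℕ) (hodd : Odd N) (hperf : N.Perfect) (p : ℕ) (hp : p.Prime) (hpN : p ∣ N)
    (a : ℕ) (ha : a = N.factorization p) :
    ∃ s : ℕ, ∑ d ∈ (N / p ^ a).divisors, d = s * p ^ a ∧
      Real.log N ≤ 6000 * min ((min N.primeFactors.card a : ℕ) : ℝ) (Real.log s) * Real.log s ∧
      Real.exp (Real.sqrt (Real.log N / 6000)) ≤ s ∧
      (N : ℝ) ^ (1 / (6000 * ((min N.primeFactors.card a : ℕ) : ℝ))) ≤ s ∧
      ((p : ℝ) ^ a) ^ 2 * s ≤ 2 * N := by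
  have hN0 : N ≠ 0 := hperf.2.ne'
  have ha1 : 1 ≤ a := by
    rw [ha]; exact hp.factorization_pos_of_dvd hN0 hpN
  set m := N / p ^ a with hm
  have hNm : N = p ^ a * m := by
    rw [hm, ha]; exact (Nat.ordProj_mul_ordCompl_eq_self N p).symm
  have hpm : ¬ p ∣ m := by
    rw [hm, ha]; exact Nat.not_dvd_ordCompl hp hN0
  have hsgN : sg N = 2 * N := (Nat.perfect_iff_sum_divisors_eq_two_mul hperf.2).1 hperf
  have hcop : Nat.Coprime (p ^ a) m :=
    Nat.Coprime.pow_left _ ((Nat.Prime.coprime_iff_not_dvd hp).2 hpm)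
  obtain ⟨s, hs⟩ : p ^ a ∣ sg m := by
    have h1 : p ^ a ∣ S p a * sg m := by
      have h2 : S p a * sg m = 2 * N := by
        rw [← hsgN]
        conv_rhs => rw [hNm]
        rw [sg_mul hcop, sg_prime_pow hp]
      rw [h2]
      exact (Dvd.intro _ hNm.symm).mul_left 2
    exact (Nat.Coprime.pow_left a (S_coprime hp a)).dvd_of_dvd_mul_left h1
  have H : Data N p a m s :=
    { odd := hodd, perf := hsgN, hp := hp, ha := ha1, hN := hNm, hpm := hpm,
      hs := by rw [hs, mul_comm] }
  have hs2 := Dt.two_le_s H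
  have hs0 : (0 : ℝ) < s := by
    have : 0 < s := by omega
    exact_mod_cast this
  have hlogs : 0 < Real.log s := Real.log_pos (by
    have : (2 : ℝ) ≤ s := by exact_mod_cast hs2
    linarith)
  have h1 := Dt.log_N_le H
  have h2 := Dt.log_N_le' H
  have hNR : (1 : ℝ) ≤ N := by
    have : 1 ≤ N := Nat.pos_of_ne_zero hN0
    exact_mod_cast this
  have hlogN : 0 ≤ Real.log N := Real.log_nonneg hNR
  have hk1 : 1 ≤ N.primeFactors.card := by
    rw [Nat.one_le_iff_ne_zero, Finset.card_ne_zero]
    exact ⟨p, Nat.mem_primeFactors.2 ⟨hp, hpN, hN0⟩⟩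
  have hmain : Real.log N ≤
      6000 * min ((min N.primeFactors.card a : ℕ) : ℝ) (Real.log s) * Real.log s := by
    rcases le_total N.primeFactors.card a with h | h
    · rw [min_eq_left h]; exact h1
    · rw [min_eq_right h]
      rcases le_total (a : ℝ) (Real.log s) with h3 | h3
      · rw [min_eq_left h3]; exact h2
      · rw [min_eq_right h3]
        refine h1.trans ?_
        refine mul_le_mul_of_nonneg_right ?_ hlogs.le
        exact mul_le_mul_of_nonneg_left (min_le_right _ _) (by norm_num)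
  refine ⟨s, by rw [mul_comm]; exact hs, hmain, ?_, ?_, ?_⟩
  · rw [← Real.le_log_iff_exp_le hs0]
    apply Real.sqrt_le_iff.2
    refine ⟨hlogs.le, ?_⟩
    rw [div_le_iff₀ (by norm_num)]
    calc Real.log N ≤ 6000 * min ((min N.primeFactors.card a : ℕ) : ℝ) (Real.log s) *
          Real.log s := hmain
      _ ≤ 6000 * Real.log s * Real.log s := by
        refine mul_le_mul_of_nonneg_right ?_ hlogs.le
        exact mul_le_mul_of_nonneg_left (min_le_right _ _) (by norm_num)
      _ = Real.log s ^ 2 * 6000 := by ring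
  · have hmin : 1 ≤ min N.primeFactors.card a := le_min hk1 ha1
    have hminR : (0 : ℝ) < ((min N.primeFactors.card a : ℕ) : ℝ) := by
      have : 0 < min N.primeFactors.card a := by omega
      exact_mod_cast this
    rw [Real.rpow_def_of_pos (lt_of_lt_of_le one_pos hNR), ← Real.le_log_iff_exp_le hs0, mul_one_div,
      div_le_iff₀ (mul_pos (by norm_num) hminR)]
    calc Real.log N ≤ 6000 * min ((min N.primeFactors.card a : ℕ) : ℝ) (Real.log s) *
          Real.log s := hmain
      _ ≤ 6000 * ((min N.primeFactors.card a : ℕ) : ℝ) * Real.log s := by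
        refine mul_le_mul_of_nonneg_right ?_ hlogs.le
        exact mul_le_mul_of_nonneg_left (min_le_left _ _) (by norm_num)
      _ = _ := by ring
  · have h3 : p ^ a * p ^ a * s ≤ 2 * N := by
      have h4 : p ^ a * s ≤ 2 * m := by
        rw [← H.eq1]
        exact Nat.mul_le_mul_right _ (pow_le_S p a)
      calc p ^ a * p ^ a * s = p ^ a * (p ^ a * s) := by ring
        _ ≤ p ^ a * (2 * m) := Nat.mul_le_mul_left _ h4
        _ = 2 * N := by
          conv_rhs => rw [hNm]
          ring
    have h5 : ((p : ℝ) ^ a * (p : ℝ) ^ a) * s ≤ 2 * N := by exact_mod_cast h3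
    rw [sq]
    exact h5

end Pool.Agent.Results.MP_f02ea4_nt.IndexFractionalPower
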