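import Mathlib
import Pool.Agent.NH19.SwFin

set_option autoImplicit false

/-!
# The least prime factor of an odd perfect number and the prime factors with large exponents

Let `P` be the least prime factor of the odd perfect number `N`.  Norton (1961): `ω(N)` is at least
about `P ^ 2 / (2 log P)`, so `log N ≥ c P ^ 2`.  We show `log N ≥ c P ^ 2 (log P) ^ (1 - ε)` and
`Ω(N) ≥ c P ^ 2 (log P) ^ (- ε)`.

* `SW.mert_one`: `(l - 1) ∑ 1 / r` over the primes `r = 1` modulo `l` in `(M, N]` is `∑ 1 / r` over all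
  primes in `(M, N]` up to a bounded error, uniformly in the prime `l ≤ (log M) ^ B`
  (Siegel–Walfisz).
* `SW.up_sieveG`: an upper bound sieve in which the number of the excluded classes for a prime may
  be unbounded.
* `SW.count_l`: the primes `p ≤ X` of `N` with `l ∣ v_p + 1` are at most `C X l ^ (1 / B) / (log P) ^ 2`,
  because `σ(p ^ v_p)` has no prime factor `r < P`; uniformly in `l ≤ log P`.
* `SW.many_good`: if `ω(N) ≤ P ^ 2` then at least `c P ^ 2 / log P` primes `p ∣ N` are such that all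
  prime factors of `v_p + 1` exceed `(log P) ^ (1 - ε)`.
-/

namespace Pool.Agent.Results.MP_f02ea4_nt.LeastPrimeLogSaving
open Finset
open Pool.Agent.NH19.SW

/-- **Main theorem.** Let `0 < ε < 1`.  There are `c > 0` and `P₀` such that every odd perfect number
`N`, with least prime factor `P`, satisfies `log N ≥ c P ^ 2 (log P) ^ (1 - ε)` and
`Ω(N) ≥ c P ^ 2 / (log P) ^ ε`; and if `P ≥ P₀` and `ω(N) ≤ P ^ 2`, then there are at least
`c P ^ 2 / log P` primes `p ∣ N` such that the least prime factor of `v_p(N) + 1` is greater than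
`(log P) ^ (1 - ε)`. -/
theorem result (ε : ℝ) (hε : 0 < ε) (hε1 : ε < 1) : ∃ (c : ℝ) (P₀ : ℕ), 0 < c ∧
    ∀ N : ℕ, Odd N → N.Perfect →
    c * ((N.minFac : ℝ) ^ 2 * Real.log N.minFac ^ (1 - ε)) ≤ Real.log N ∧
    c * ((N.minFac : ℝ) ^ 2 / Real.log N.minFac ^ ε) ≤
      (ArithmeticFunction.cardFactors N : ℝ) ∧
    (P₀ ≤ N.minFac → (N.primeFactors.card : ℝ) ≤ (N.minFac : ℝ) ^ 2 →
      c * ((N.minFac : ℝ) ^ 2 / Real.log N.minFac) ≤
        (({p ∈ N.primeFactors | Real.log N.minFac ^ (1 - ε) <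
          (((N.factorization p + 1).minFac : ℕ) : ℝ)}.card : ℕ) : ℝ)) := by
  classical
  obtain ⟨c₀, P₀, hc₀, hP₀, hmain⟩ := many_good ε hε hε1
  have hP₀r : (3 : ℝ) ≤ P₀ := by exact_mod_cast hP₀
  have hlogP₀ : 1 ≤ Real.log P₀ := by
    rw [Real.le_log_iff_exp_le (by linarith)]
    have := Real.exp_one_lt_d9
    linarith
  set c : ℝ := min (min 1 (c₀ / 2)) (1 / ((P₀ : ℝ) ^ 2 * Real.log P₀)) with hc
  have hc1 : c ≤ 1 := (min_le_left _ _).trans (min_le_left _ _)
  have hc2 : c ≤ c₀ / 2 := (min_le_left _ _).trans (min_le_right _ _)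
  have hc3 : c ≤ 1 / ((P₀ : ℝ) ^ 2 * Real.log P₀) := min_le_right _ _
  have hcpos : 0 < c := lt_min (lt_min one_pos (by positivity)) (by positivity)
  refine ⟨c, P₀, hcpos, fun N hodd hperf => ?_⟩
  have hN0 := hperf.2.ne'
  have hsum := (Nat.perfect_iff_sum_divisors_eq_two_mul hperf.2).1 hperf
  have hN1 : N ≠ 1 := by
    rintro rfl
    simp at hsum
  set P : ℕ := N.minFac with hPdef
  have hPp : P.Prime := Nat.minFac_prime hN1
  have hP3 : 3 ≤ P := by
    have h1 : Odd P := hodd.of_dvd_nat (Nat.minFac_dvd N)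
    have h2 := hPp.two_le
    obtain ⟨k, hk⟩ := h1
    omega
  have hPr : (3 : ℝ) ≤ P := by exact_mod_cast hP3
  set u : ℝ := Real.log P with hu
  have hu1 : 1 ≤ u := by
    rw [hu, Real.le_log_iff_exp_le (by linarith)]
    have := Real.exp_one_lt_d9
    linarith
  have hu0 : 0 < u := by linarith
  have hmin : ∀ p ∈ N.primeFactors, P ≤ p := fun p hp =>
    Nat.minFac_le_of_dvd (Nat.prime_of_mem_primeFactors hp).two_le (Nat.dvd_of_mem_primeFactors hp)
  -- `log N` and `Ω(N)` as sums
  have hlog : Real.log N = ∑ p ∈ N.primeFactors, (N.factorization p : ℝ) * Real.log p := by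
    have h1 := Pool.Agent.Y959.Opn.prod_pow_eq hN0
    rw [← h1, Real.log_prod (fun p hp => by
      have := (Nat.prime_of_mem_primeFactors hp).pos
      positivity)]
    refine Finset.sum_congr rfl (fun p _ => ?_)
    rw [Real.log_pow]
  have hOm : (ArithmeticFunction.cardFactors N : ℝ) =
      ∑ p ∈ N.primeFactors, (N.factorization p : ℝ) := by
    rw [ArithmeticFunction.cardFactors_eq_sum_factorization]
    unfold Finsupp.sum
    rw [Nat.support_factorization]
    push_cast
    rfl
  have hv1 : ∀ p ∈ N.primeFactors, (1 : ℝ) ≤ N.factorization p := by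
    intro p hp
    have : 1 ≤ N.factorization p :=
      (Nat.prime_of_mem_primeFactors hp).factorization_pos_of_dvd hN0
        (Nat.dvd_of_mem_primeFactors hp)
    exact_mod_cast this
  have hlp : ∀ p ∈ N.primeFactors, u ≤ Real.log p := by
    intro p hp
    exact Real.log_le_log (by linarith) (by exact_mod_cast hmin p hp)
  -- `Ω(N) log P ≤ log N`
  have hOmlog : (ArithmeticFunction.cardFactors N : ℝ) * u ≤ Real.log N := by
    rw [hOm, hlog, Finset.sum_mul]
    apply Finset.sum_le_sum
    intro p hp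
    exact mul_le_mul_of_nonneg_left (hlp p hp) (Nat.cast_nonneg _)
  -- it suffices to bound `Ω(N)`
  have hpow : u ^ (1 - ε) = u / u ^ ε := by rw [Real.rpow_sub hu0, Real.rpow_one]
  have hred : c * ((P : ℝ) ^ 2 / u ^ ε) ≤ (ArithmeticFunction.cardFactors N : ℝ) →
      c * ((P : ℝ) ^ 2 * u ^ (1 - ε)) ≤ Real.log N := by
    intro h
    have h1 := mul_le_mul_of_nonneg_right h hu0.le
    have h2 : c * ((P : ℝ) ^ 2 * u ^ (1 - ε)) = c * ((P : ℝ) ^ 2 / u ^ ε) * u := by
      rw [hpow]; ring
    rw [h2]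
    exact h1.trans hOmlog
  have huε : 1 ≤ u ^ ε := Real.one_le_rpow hu1 hε.le
  have hcard_le : (N.primeFactors.card : ℝ) ≤ (ArithmeticFunction.cardFactors N : ℝ) := by
    rw [hOm]
    have h1 : (N.primeFactors.card : ℝ) = ∑ _p ∈ N.primeFactors, (1 : ℝ) := by
      rw [sum_const, nsmul_eq_mul, mul_one]
    rw [h1]
    exact Finset.sum_le_sum hv1
  have hOmega : c * ((P : ℝ) ^ 2 / u ^ ε) ≤ (ArithmeticFunction.cardFactors N : ℝ) := by
    rcases Nat.lt_or_ge P P₀ with hlt | hge
    · -- small `P`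
      have h1 : (1 : ℝ) ≤ N.primeFactors.card := by
        have : 1 ≤ N.primeFactors.card := by
          rw [Nat.one_le_iff_ne_zero, Finset.card_ne_zero]
          exact ⟨P, Nat.mem_primeFactors.2 ⟨hPp, Nat.minFac_dvd N, hN0⟩⟩
        exact_mod_cast this
      have h2 : (P : ℝ) ≤ P₀ := by exact_mod_cast hlt.le
      have h3 : c * ((P : ℝ) ^ 2 / u ^ ε) ≤ 1 := by
        calc c * ((P : ℝ) ^ 2 / u ^ ε) ≤ 1 / ((P₀ : ℝ) ^ 2 * Real.log P₀) * (P₀ : ℝ) ^ 2 := by
              apply mul_le_mul hc3 _ (by positivity) (by positivity)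
              calc (P : ℝ) ^ 2 / u ^ ε ≤ (P : ℝ) ^ 2 := div_le_self (by positivity) huε
                _ ≤ (P₀ : ℝ) ^ 2 := pow_le_pow_left₀ (by linarith) h2 2
          _ = 1 / Real.log P₀ := by field_simp
          _ ≤ 1 := by
              rw [div_le_one (by linarith)]
              exact hlogP₀
      linarith
    · rcases lt_or_ge ((P : ℝ) ^ 2) (N.primeFactors.card : ℝ) with hω | hω
      · calc c * ((P : ℝ) ^ 2 / u ^ ε) ≤ 1 * (P : ℝ) ^ 2 := by
              apply mul_le_mul hc1 (div_le_self (by positivity) huε) (by positivity) (by norm_num)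
          _ ≤ _ := by linarith
      · have h1 := hmain N hodd hperf hge hω
        rw [← hu] at h1
        set T : ℝ := u ^ (1 - ε) with hT
        have hT1 : 1 ≤ T := Real.one_le_rpow hu1 (by linarith)
        -- `Ω(N) ≥ (T / 2) #Gd`
        have h2 : T / 2 * ((Gd N T).card : ℝ) ≤ (ArithmeticFunction.cardFactors N : ℝ) := by
          rw [hOm]
          calc T / 2 * ((Gd N T).card : ℝ) = ∑ _p ∈ Gd N T, T / 2 := by
                rw [sum_const, nsmul_eq_mul]; ring
            _ ≤ ∑ p ∈ Gd N T, (N.factorization p : ℝ) := by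
                apply Finset.sum_le_sum
                intro p hp
                obtain ⟨h3, h4⟩ := mem_Gd.1 hp
                have h5 : (((N.factorization p + 1).minFac : ℕ) : ℝ) ≤
                    ((N.factorization p + 1 : ℕ) : ℝ) := by
                  exact_mod_cast Nat.minFac_le (by omega)
                push_cast at h5
                have h6 := hv1 p h3
                linarith
            _ ≤ ∑ p ∈ N.primeFactors, (N.factorization p : ℝ) :=
                Finset.sum_le_sum_of_subset_of_nonneg (fun p hp => (mem_Gd.1 hp).1)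
                  (fun p _ _ => Nat.cast_nonneg _)
        refine le_trans ?_ h2
        calc c * ((P : ℝ) ^ 2 / u ^ ε) ≤ (c₀ / 2) * ((P : ℝ) ^ 2 / u ^ ε) :=
              mul_le_mul_of_nonneg_right hc2 (by positivity)
          _ = T / 2 * (c₀ * ((P : ℝ) ^ 2 / u)) := by
              rw [show T = u / u ^ ε from hpow]
              field_simp
          _ ≤ T / 2 * ((Gd N T).card : ℝ) := mul_le_mul_of_nonneg_left h1 (by positivity)
  refine ⟨hred hOmega, hOmega, fun hge hω => ?_⟩
  have h1 := hmain N hodd hperf hge hω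
  have h2 : Gd N (u ^ (1 - ε)) = {p ∈ N.primeFactors | u ^ (1 - ε) <
      (((N.factorization p + 1).minFac : ℕ) : ℝ)} := by
    ext p
    rw [mem_Gd, mem_filter]
  have h3 : c * ((P : ℝ) ^ 2 / u) ≤ c₀ * ((P : ℝ) ^ 2 / u) :=
    mul_le_mul_of_nonneg_right (by linarith) (by positivity)
  refine h3.trans (h1.trans (le_of_eq ?_))
  rw [← hu, h2]

end Pool.Agent.Results.MP_f02ea4_nt.LeastPrimeLogSaving
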